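import Pool.Agent.W2helper15.OP.Sieg0
import Pool.Agent.K4H56.IF.UE

/-!
# Project OP, piece SIEG (helper9)
-/

set_option autoImplicit false

open IsDedekindDomain NumberField

namespace Pool.Agent.W2helper15.OP

open Pool.Agent.W2helper9.OP

theorem unit2 : Unit2 := by
  intro L _ _ S hS
  refine (Pool.Agent.K4H56.IF.su (L := L) S hS).subset ?_
  rintro x ⟨h0, h1, h2⟩
  refine ⟨h0, h1, fun v hv => ?_⟩
  obtain ⟨h3, h4⟩ := h2 v hv
  constructor
  · show -WithZero.log (v.valuation L x) = 0
    rw [h3, WithZero.log_one, neg_zero]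
  · show -WithZero.log (v.valuation L (1 - x)) = 0
    rw [h4, WithZero.log_one, neg_zero]

/-- **SIEG** -/
theorem p_SIEG : P_SIEG := sieg_of unit2

end Pool.Agent.W2helper15.OP
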