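import Pool.Agent.W2helper9.OP.Stm2

/-!
# Project OP, piece SIEG (helper9): Siegel's theorem for orbits, from the unit equation
-/

set_option autoImplicit false

open MvPolynomial IsDedekindDomain NumberField Filter

namespace Pool.Agent.W2helper15.OP

open Pool.Agent.Helper819.Dyn (Tuple IsEnd)
open Pool.Agent.W2helper9.OP

/-- the bracket of two vectors -/
def br {E : Type} [Field E] (x y : Fin 2 → E) : E := x 0 * y 1 - x 1 * y 0

section br

variable {E : Type} [Field E]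

theorem peq_of_br {x y : Fin 2 → E} (hx : x ≠ 0) (hy : y ≠ 0) (h : br x y = 0) :
    PEq (N := 1) x y := by
  unfold br at h
  by_cases h0 : x 0 = 0
  · have h1 : x 1 ≠ 0 := by
      intro h1
      apply hx
      funext i
      fin_cases i
      · exact h0
      · exact h1
    have h2 : y 0 = 0 := by
      rw [h0, zero_mul, zero_sub, neg_eq_zero] at h
      exact (mul_eq_zero.1 h).resolve_left h1
    have h3 : y 1 ≠ 0 := by
      intro h3
      apply hy
      funext i
      fin_cases i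
      · exact h2
      · exact h3
    refine ⟨y 1 / x 1, div_ne_zero h3 h1, ?_⟩
    funext i
    fin_cases i
    · show y 0 = y 1 / x 1 * x 0
      rw [h0, h2, mul_zero]
    · show y 1 = y 1 / x 1 * x 1
      rw [div_mul_cancel₀ _ h1]
  · have h3 : y 0 ≠ 0 := by
      intro h3
      rw [h3, mul_zero, sub_zero] at h
      apply hy
      funext i
      fin_cases i
      · exact h3
      · exact (mul_eq_zero.1 h).resolve_left h0
    refine ⟨y 0 / x 0, div_ne_zero h3 h0, ?_⟩
    funext i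
    fin_cases i
    · show y 0 = y 0 / x 0 * x 0
      rw [div_mul_cancel₀ _ h0]
    · show y 1 = y 0 / x 0 * x 1
      rw [div_mul_eq_mul_div, eq_div_iff h0]
      linear_combination h

theorem br_smul (a : E) (x y : Fin 2 → E) : br (a • x) y = a * br x y := by
  unfold br
  rw [Pi.smul_apply, Pi.smul_apply, smul_eq_mul, smul_eq_mul]
  ring

variable {Γ : Type} [LinearOrderedCommGroupWithZero Γ] {ν : Valuation E Γ}

theorem lt_of_mul {s t : E} (hs : ν s = 1) (h : ν (s * t) < 1) : ν t < 1 := by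
  rwa [map_mul, hs, one_mul] at h

theorem cong_of_br {x b : Fin 2 → E} (hx : ∀ i, ν (x i) ≤ 1) (hx1 : ∃ i, ν (x i) = 1)
    (hb : ∀ i, ν (b i) ≤ 1) (hb1 : ∃ i, ν (b i) = 1) (h : ν (br x b) < 1) :
    Cong (N := 1) ν x b := by
  -- a coordinate where both are units
  have key : ∃ j, ν (x j) = 1 ∧ ν (b j) = 1 := by
    by_contra hcon
    push Not at hcon
    obtain ⟨j, hj⟩ := hx1
    obtain ⟨l, hl⟩ := hb1
    have hbj : ν (b j) < 1 := lt_of_le_of_ne (hb j) (hcon j hj)
    have hxl : ν (x l) < 1 := lt_of_le_of_ne (hx l) fun h1 => hcon l h1 hl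
    have hjl : j ≠ l := by
      rintro rfl
      exact hbj.ne hl
    have e : x j * b l - x l * b j = br x b ∨ x j * b l - x l * b j = - br x b := by
      unfold br
      fin_cases j <;> fin_cases l
      · exact absurd rfl hjl
      · left; rfl
      · right; simp
      · exact absurd rfl hjl
    have h1 : ν (x j * b l - x l * b j) < 1 := by
      rcases e with e | e
      · rw [e]; exact h
      · rw [e, Valuation.map_neg]; exact h
    have h2 : ν (x l * b j) < 1 := by
      rw [map_mul]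
      exact mul_lt_one_of_lt_of_le hxl (hb j)
    have h3 : ν (x j * b l) < 1 := by
      have e3 : x j * b l = (x j * b l - x l * b j) + x l * b j := by ring
      rw [e3]
      exact (Valuation.map_add ν _ _).trans_lt (max_lt h1 h2)
    rw [map_mul, hj, hl, one_mul] at h3
    exact lt_irrefl _ h3
  obtain ⟨j, hj, hbj⟩ := key
  refine ⟨b j, x j, fun i => ?_, ⟨j, by rw [map_mul, hj, hbj, one_mul]⟩, fun i => ?_⟩
  · rw [map_mul, hbj, one_mul]
    exact hx i
  · have e : b j * x i - x j * b i = 0 ∨ b j * x i - x j * b i = br x b ∨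
        b j * x i - x j * b i = - br x b := by
      unfold br
      fin_cases j <;> fin_cases i
      · left; show b 0 * x 0 - x 0 * b 0 = 0; ring
      · right; right; show b 0 * x 1 - x 0 * b 1 = _; ring
      · right; left; show b 1 * x 0 - x 1 * b 0 = _; ring
      · left; show b 1 * x 1 - x 1 * b 1 = 0; ring
    rcases e with e | e | e
    · rw [e, map_zero]; exact zero_lt_one
    · rw [e]; exact h
    · rw [e, Valuation.map_neg]; exact h

theorem val_br {x : Fin 2 → E} (hx : x ≠ 0) : ∃ M : Γ, M ≠ 0 ∧ ∀ b : Fin 2 → E,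
    (∀ i, ν (b i) ≤ 1) → (∃ i, ν (b i) = 1) → ¬ Cong (N := 1) ν x b → ν (br x b) = M := by
  obtain ⟨j, hj, hmax⟩ := exists_max (N := 1) ν hx
  refine ⟨ν (x j), (Valuation.ne_zero_iff ν).2 hj, fun b hb hb1 hn => ?_⟩
  have hy : ∀ i, ν (((x j)⁻¹ • x) i) ≤ 1 := by
    intro i
    rw [Pi.smul_apply, smul_eq_mul, mul_comm, ← div_eq_mul_inv]
    exact hmax i
  have hy1 : ∃ i, ν (((x j)⁻¹ • x) i) = 1 :=
    ⟨j, by rw [Pi.smul_apply, smul_eq_mul, inv_mul_cancel₀ hj, map_one]⟩
  have h1 : ν (br ((x j)⁻¹ • x) b) ≤ 1 := by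
    unfold br
    refine (Valuation.map_sub ν _ _).trans (max_le ?_ ?_)
    · rw [map_mul]; exact mul_le_one' (hy 0) (hb 1)
    · rw [map_mul]; exact mul_le_one' (hy 1) (hb 0)
  have h2 : ¬ ν (br ((x j)⁻¹ • x) b) < 1 := by
    intro h2
    apply hn
    refine (cong_of_br hy hy1 hb hb1 h2).congr_left ?_
    exact (peq_smul (N := 1) (inv_ne_zero hj) x).symm
  have h3 : ν (br ((x j)⁻¹ • x) b) = 1 := le_antisymm h1 (not_lt.1 h2)
  rw [br_smul, map_mul, map_inv₀] at h3
  have h4 : ν (x j) ≠ 0 := (Valuation.ne_zero_iff ν).2 hj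
  rw [inv_mul_eq_iff_eq_mul₀ h4, mul_one] at h3
  exact h3

theorem unimod {b c : Fin 2 → E} (hb : ∀ i, ν (b i) ≤ 1) (hc : ∀ i, ν (c i) ≤ 1)
    (h : ν (br b c) = 1) : ∃ i, ν (b i) = 1 := by
  by_contra hcon
  push Not at hcon
  have h1 : ∀ i, ν (b i) < 1 := fun i => lt_of_le_of_ne (hb i) (hcon i)
  have h2 : ν (br b c) < 1 := by
    unfold br
    refine (Valuation.map_sub ν _ _).trans_lt (max_lt ?_ ?_)
    · rw [map_mul]; exact mul_lt_one_of_lt_of_le (h1 0) (hc 1)
    · rw [map_mul]; exact mul_lt_one_of_lt_of_le (h1 1) (hc 0)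
  rw [h] at h2
  exact lt_irrefl _ h2

end br

section places

variable {K L : Type} [Field K] [NumberField K] [Field L] [NumberField L] [Algebra K L]

theorem exists_under (w : HeightOneSpectrum (𝓞 L)) : ∃ v : HeightOneSpectrum (𝓞 K),
    w.asIdeal.comap (algebraMap (𝓞 K) (𝓞 L)) = v.asIdeal := by
  have := w.isPrime
  exact ⟨⟨w.asIdeal.comap (algebraMap (𝓞 K) (𝓞 L)), inferInstance,
    Ideal.IsIntegral.comap_ne_bot (𝓞 K) w.ne_bot⟩, rfl⟩

theorem finite_over (B : Set (HeightOneSpectrum (𝓞 K))) (hB : B.Finite) :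
    {w : HeightOneSpectrum (𝓞 L) | ∃ v ∈ B,
      w.asIdeal.comap (algebraMap (𝓞 K) (𝓞 L)) = v.asIdeal}.Finite := by
  have h1 : ∀ v : HeightOneSpectrum (𝓞 K), {w : HeightOneSpectrum (𝓞 L) |
      w.asIdeal.comap (algebraMap (𝓞 K) (𝓞 L)) = v.asIdeal}.Finite := by
    intro v
    obtain ⟨a, ha, ha0⟩ := Submodule.exists_mem_ne_zero_of_ne_bot v.ne_bot
    have hI : Ideal.span {algebraMap (𝓞 K) (𝓞 L) a} ≠ ⊥ := by
      rw [Ne, Ideal.span_singleton_eq_bot]
      intro h
      exact ha0 ((FaithfulSMul.algebraMap_injective (𝓞 K) (𝓞 L)) (by rw [h, map_zero]))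
    refine (Ideal.finite_factors hI).subset (fun w hw => ?_)
    refine Ideal.dvd_span_singleton.2 ?_
    have h2 : a ∈ w.asIdeal.comap (algebraMap (𝓞 K) (𝓞 L)) := by
      rw [show w.asIdeal.comap (algebraMap (𝓞 K) (𝓞 L)) = v.asIdeal from hw]
      exact ha
    exact h2
  refine (hB.biUnion fun v _ => h1 v).subset ?_
  rintro w ⟨v, hv, hw⟩
  exact Set.mem_biUnion hv hw

end places

/-- the unit equation -/
def Unit2 : Prop := ∀ (L : Type) [Field L] [NumberField L] (S : Set (HeightOneSpectrum (𝓞 L))),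
  S.Finite → {x : L | x ≠ 0 ∧ 1 - x ≠ 0 ∧
    ∀ v ∉ S, v.valuation L x = 1 ∧ v.valuation L (1 - x) = 1}.Finite

theorem sieg_of (hSU : Unit2) : P_SIEG := by
  classical
  intro hCMAP hGAE hINT hEXT K _ _ d F hF ζ b hζ hb hbne hb2 γ hγ hpre T hT
  by_contra hcon
  push Not at hcon
  obtain ⟨X, hX⟩ : ∃ X : ℕ → Fin 2 → K, X = fun m => (mp F)^[m] γ := ⟨_, rfl⟩
  have hX0 : ∀ m, X m ≠ 0 := fun m => by rw [hX]; exact iter_ne_zero' hF hγ m
  have hXe : ∀ m, (mp F)^[m] (emb γ) = emb (N := 1) (X m) := fun m => by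
    rw [hX]; exact iter_emb F γ m
  have hXE0 : ∀ m, emb (N := 1) (X m) ≠ 0 := fun m => emb_ne_zero (hX0 m)
  -- the brackets of the `b i`
  have hc : ∀ i j, i ≠ j → br (b i) (b j) ≠ 0 := fun i j hij h =>
    hbne i j hij (peq_of_br (hb i) (hb j) h)
  -- the good places
  have hAA : AA K (fun A => GoodA F A ∧ (∀ p : Fin 3 × Fin 2, b p.1 p.2 ∈ A) ∧
      ∀ p : Fin 3 × Fin 3, (br (b p.1) (b p.2))⁻¹ ∈ A) :=
    (hGAE hINT K 1 d F hF).and ((AA.forall_fin fun p => hINT K _).and
      (AA.forall_fin fun p => hINT K _))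
  -- no congruence
  have hnc : ∀ v ∉ T, ∀ A, Over v A → GoodA F A → ∀ m i,
      ¬ Cong A.valuation (emb (N := 1) (X m)) (b i) := by
    intro v hv A hA hG m i h
    apply hcon v hv A hA (2 + m)
    rw [Function.iterate_add_apply, hXe]
    exact (cong_iter hCMAP hF.1 hG h 2).congr_right (hb2 i)
  -- the field
  obtain ⟨L, hL⟩ : ∃ L : IntermediateField K (AlgebraicClosure K),
    L = IntermediateField.adjoin K (Set.range fun p : Fin 3 × Fin 2 => b p.1 p.2) := ⟨_, rfl⟩
  have hbL : ∀ i j, b i j ∈ L := by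
    intro i j
    rw [hL]
    exact IntermediateField.subset_adjoin K _ ⟨(i, j), rfl⟩
  have hfd : FiniteDimensional K L := by
    rw [hL]
    exact IntermediateField.finiteDimensional_adjoin (fun x _ =>
      Algebra.IsIntegral.isIntegral x)
  have hNF : NumberField L := NumberField.of_module_finite K L
  have hXL : ∀ m j, emb (N := 1) (X m) j ∈ L := fun m j => L.algebraMap_mem _
  have hbrL : ∀ {x y : Fin 2 → AlgebraicClosure K}, (∀ j, x j ∈ L) → (∀ j, y j ∈ L) →
      br x y ∈ L := fun hx hy => L.sub_mem (L.mul_mem (hx 0) (hy 1)) (L.mul_mem (hx 1) (hy 0))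
  obtain ⟨U, hU⟩ : ∃ U : ℕ → L, ∀ m, (U m : AlgebraicClosure K) =
      br (emb (N := 1) (X m)) (b 0) * br (b 2) (b 1) /
        (br (emb (N := 1) (X m)) (b 1) * br (b 2) (b 0)) :=
    ⟨fun m => ⟨br (emb (N := 1) (X m)) (b 0) * br (b 2) (b 1) /
        (br (emb (N := 1) (X m)) (b 1) * br (b 2) (b 0)),
      L.div_mem (L.mul_mem (hbrL (hXL m) (hbL 0)) (hbrL (hbL 2) (hbL 1)))
        (L.mul_mem (hbrL (hXL m) (hbL 1)) (hbrL (hbL 2) (hbL 0)))⟩, fun m => rfl⟩
  -- the exceptional times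
  have hE : {m : ℕ | ∃ i, PEq (emb (N := 1) (X m)) (b i)}.Finite := by
    have h1 : ∀ i : Fin 3, {m : ℕ | PEq (emb (N := 1) (X m)) (b i)}.Finite := by
      intro i
      refine Set.Subsingleton.finite ?_
      intro m hm n hn
      by_contra hne
      have h2 : PEq (N := 1) (X m) (X n) := (peq_emb (hX0 m)).1 (PEq.trans hm (PEq.symm hn))
      rw [hX] at h2
      rcases lt_or_gt_of_ne hne with h | h
      · exact hpre ⟨m, n, h, h2⟩
      · exact hpre ⟨n, m, h, h2.symm⟩
    refine (Set.finite_iUnion h1).subset ?_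
    rintro m ⟨i, hi⟩
    exact Set.mem_iUnion.2 ⟨i, hi⟩
  have hbr0 : ∀ m ∉ {m : ℕ | ∃ i, PEq (emb (N := 1) (X m)) (b i)}, ∀ i,
      br (emb (N := 1) (X m)) (b i) ≠ 0 := by
    intro m hm i h
    exact hm ⟨i, peq_of_br (hXE0 m) (hb i) h⟩
  -- the units
  have hAA' : {v : HeightOneSpectrum (𝓞 K) | ∃ A, Over v A ∧ ¬ (GoodA F A ∧
      (∀ p : Fin 3 × Fin 2, b p.1 p.2 ∈ A) ∧
      ∀ p : Fin 3 × Fin 3, (br (b p.1) (b p.2))⁻¹ ∈ A)}.Finite := hAA
  have hSfin := finite_over (L := L) _ (hT.union hAA')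
  have hfin := hSU L _ hSfin
  have hinf : ({m : ℕ | ∃ i, PEq (emb (N := 1) (X m)) (b i)}ᶜ).Infinite := hE.infinite_compl
  have h1U : ∀ m ∉ {m : ℕ | ∃ i, PEq (emb (N := 1) (X m)) (b i)},
      1 - (U m : AlgebraicClosure K) = br (emb (N := 1) (X m)) (b 2) * br (b 1) (b 0) /
        (br (emb (N := 1) (X m)) (b 1) * br (b 2) (b 0)) := by
    intro m hm
    have k1 := hbr0 m hm 1
    have k2 := hc 2 0 (by decide)
    rw [hU, eq_div_iff (mul_ne_zero k1 k2), sub_mul, one_mul, div_mul_cancel₀ _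
      (mul_ne_zero k1 k2)]
    unfold br
    ring
  have hmap : Set.MapsTo U ({m : ℕ | ∃ i, PEq (emb (N := 1) (X m)) (b i)}ᶜ) {x : L | x ≠ 0 ∧
      1 - x ≠ 0 ∧ ∀ w ∉ {w : HeightOneSpectrum (𝓞 L) | ∃ v ∈ T ∪ {v : HeightOneSpectrum (𝓞 K) |
        ∃ A, Over v A ∧ ¬ (GoodA F A ∧ (∀ p : Fin 3 × Fin 2, b p.1 p.2 ∈ A) ∧
      ∀ p : Fin 3 × Fin 3, (br (b p.1) (b p.2))⁻¹ ∈ A)},
      w.asIdeal.comap (algebraMap (𝓞 K) (𝓞 L)) = v.asIdeal},
      w.valuation L x = 1 ∧ w.valuation L (1 - x) = 1} := by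
    intro m hm
    have k0 := hbr0 m hm 0
    have k1 := hbr0 m hm 1
    have k2 := hbr0 m hm 2
    have c20 := hc 2 0 (by decide)
    have c21 := hc 2 1 (by decide)
    have c10 := hc 1 0 (by decide)
    refine ⟨?_, ?_, ?_⟩
    · intro h
      have h2 := hU m
      rw [h, ZeroMemClass.coe_zero] at h2
      exact div_ne_zero (mul_ne_zero k0 c21) (mul_ne_zero k1 c20) h2.symm
    · intro h
      have h2 := h1U m hm
      have h3 : ((1 - U m : L) : AlgebraicClosure K) = 1 - (U m : AlgebraicClosure K) := rfl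
      rw [← h3, h, ZeroMemClass.coe_zero] at h2
      exact div_ne_zero (mul_ne_zero k2 c10) (mul_ne_zero k1 c20) h2.symm
    · intro w hw
      obtain ⟨v, hv⟩ := exists_under (K := K) w
      have hvB : v ∉ T ∪ {v : HeightOneSpectrum (𝓞 K) |
        ∃ A, Over v A ∧ ¬ (GoodA F A ∧ (∀ p : Fin 3 × Fin 2, b p.1 p.2 ∈ A) ∧
      ∀ p : Fin 3 × Fin 3, (br (b p.1) (b p.2))⁻¹ ∈ A)} := fun h => hw ⟨v, h, hv⟩
      have hvT : v ∉ T := fun h => hvB (Or.inl h)
      obtain ⟨A, hA, hAw⟩ := hEXT K L v w hv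
      have hgood : GoodA F A ∧ (∀ p : Fin 3 × Fin 2, b p.1 p.2 ∈ A) ∧
          ∀ p : Fin 3 × Fin 3, (br (b p.1) (b p.2))⁻¹ ∈ A := by
        by_contra h
        exact hvB (Or.inr ⟨A, hA, h⟩)
      obtain ⟨hG, hint, hinv⟩ := hgood
      have hbi : ∀ i j, A.valuation (b i j) ≤ 1 := fun i j =>
        (ValuationSubring.valuation_le_one_iff A _).2 (hint (i, j))
      have hcv : ∀ i j, i ≠ j → A.valuation (br (b i) (b j)) = 1 := by
        intro i j hij
        apply le_antisymm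
        · unfold br
          refine (Valuation.map_sub _ _ _).trans (max_le ?_ ?_)
          · rw [map_mul]; exact mul_le_one' (hbi i 0) (hbi j 1)
          · rw [map_mul]; exact mul_le_one' (hbi i 1) (hbi j 0)
        · have h1 := (ValuationSubring.valuation_le_one_iff A _).2 (hinv (i, j))
          rw [map_inv₀] at h1
          exact (inv_le_one₀ (zero_lt_iff.2 ((Valuation.ne_zero_iff _).2 (hc i j hij)))).1 h1
      have huni : ∀ i, ∃ j, A.valuation (b i j) = 1 := by
        intro i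
        obtain ⟨l, hl⟩ : ∃ l : Fin 3, i ≠ l := by
          by_cases h : i = 0
          · exact ⟨1, by rw [h]; decide⟩
          · exact ⟨0, h⟩
        exact unimod (hbi i) (hbi l) (hcv i l hl)
      obtain ⟨M, hM0, hM⟩ := val_br (ν := A.valuation) (hXE0 m)
      have hv0 : ∀ i, A.valuation (br (emb (N := 1) (X m)) (b i)) = M := fun i =>
        hM (b i) (hbi i) (huni i) (hnc v hvT A hA hG m i)
      -- from `A` to `w`
      have tr : ∀ z : L, z ≠ 0 → A.valuation (z : AlgebraicClosure K) = 1 →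
          w.valuation L z = 1 := by
        intro z hz h
        have e1 : w.valuation L z ≤ 1 := (hAw z).1
          ((ValuationSubring.valuation_le_one_iff A _).1 h.le)
        have e2 : w.valuation L z⁻¹ ≤ 1 := by
          refine (hAw z⁻¹).1 ((ValuationSubring.valuation_le_one_iff A _).1 ?_)
          have e3 : ((z⁻¹ : L) : AlgebraicClosure K) = (z : AlgebraicClosure K)⁻¹ := rfl
          rw [e3, map_inv₀, h, inv_one]
        rw [map_inv₀] at e2
        exact le_antisymm e1 ((inv_le_one₀ (zero_lt_iff.2 ((Valuation.ne_zero_iff _).2 hz))).1 e2)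
      refine ⟨tr _ ?_ ?_, tr _ ?_ ?_⟩
      · intro h
        have h2 := hU m
        rw [h, ZeroMemClass.coe_zero] at h2
        exact div_ne_zero (mul_ne_zero k0 c21) (mul_ne_zero k1 c20) h2.symm
      · rw [hU, map_div₀, map_mul, map_mul, hv0, hv0, hcv 2 1 (by decide), hcv 2 0 (by decide),
          mul_one, div_self hM0]
      · intro h
        have h2 := h1U m hm
        have h3 : ((1 - U m : L) : AlgebraicClosure K) = 1 - (U m : AlgebraicClosure K) := rfl
        rw [← h3, h, ZeroMemClass.coe_zero] at h2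
        exact div_ne_zero (mul_ne_zero k2 c10) (mul_ne_zero k1 c20) h2.symm
      · have h3 : ((1 - U m : L) : AlgebraicClosure K) = 1 - (U m : AlgebraicClosure K) := rfl
        rw [h3, h1U m hm, map_div₀, map_mul, map_mul, hv0, hv0, hcv 1 0 (by decide),
          hcv 2 0 (by decide), mul_one, div_self hM0]
  obtain ⟨m, hm, n, hn, hmn, hUU⟩ := hinf.exists_ne_map_eq_of_mapsTo hmap hfin
  -- `u` determines the point
  have hUU' : (U m : AlgebraicClosure K) = (U n : AlgebraicClosure K) := by rw [hUU]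
  rw [hU, hU] at hUU'
  have km := hbr0 m hm 1
  have kn := hbr0 n hn 1
  have c20 := hc 2 0 (by decide)
  have c21 := hc 2 1 (by decide)
  have c01 := hc 0 1 (by decide)
  rw [div_eq_div_iff (mul_ne_zero km c20) (mul_ne_zero kn c20)] at hUU'
  have h5 : br (emb (N := 1) (X m)) (b 0) * br (emb (N := 1) (X n)) (b 1) =
      br (emb (N := 1) (X n)) (b 0) * br (emb (N := 1) (X m)) (b 1) := by
    have h6 : br (b 2) (b 1) * br (b 2) (b 0) ≠ 0 := mul_ne_zero c21 c20
    apply mul_right_cancel₀ h6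
    linear_combination hUU'
  have h7 : br (emb (N := 1) (X m)) (emb (N := 1) (X n)) * br (b 0) (b 1) = 0 := by
    have h8 : br (emb (N := 1) (X m)) (emb (N := 1) (X n)) * br (b 0) (b 1) =
        br (emb (N := 1) (X m)) (b 0) * br (emb (N := 1) (X n)) (b 1) -
          br (emb (N := 1) (X n)) (b 0) * br (emb (N := 1) (X m)) (b 1) := by
      unfold br
      ring
    rw [h8, h5, sub_self]
  have h9 : PEq (N := 1) (X m) (X n) := (peq_emb (hX0 m)).1
    (peq_of_br (hXE0 m) (hXE0 n) ((mul_eq_zero.1 h7).resolve_right c01))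
  rw [hX] at h9
  rcases lt_or_gt_of_ne hmn with h | h
  · exact hpre ⟨m, n, h, h9⟩
  · exact hpre ⟨n, m, h, h9.symm⟩

end Pool.Agent.W2helper15.OP
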